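import Pool.Agent.H48.M5.Stmts
import Pool.Agent.H48.M5.Lag
import Pool.Agent.H14.OC.Qnt
import Pool.Agent.H87.SLO.Tup
import Pool.Agent.H48.OC.Core

/-!
# Row QNT of the lemma L1: the label of a reference
-/

set_option autoImplicit false

namespace Pool.M5.Q86

open Finset Real
open Pool.Agent.H49.Ent Pool.Agent.H32.Dense Pool.STK Pool.KAF Pool.M5
open Pool.OC.QNT (Pr_mono' mean_cond markov')

section dat

variable {k n : ℕ} {I : Type} [Fintype I] (b : Bas k I) (d : LDat k n I)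

omit [Fintype I] in
theorem Qr_eq : d.Qr = Pool.SLO.tup d.P d.L n := by
  classical
  funext v
  rw [Pool.SLO.tup_eq]
  unfold LDat.Qr
  congr 1

omit [Fintype I] in
theorem Qr_isLaw (hp : IsLaw d.P) : IsLaw d.Qr := by
  rw [Qr_eq]
  exact Pool.SLO.tup_isLaw hp d.L n

omit [Fintype I] in
theorem Qr_marg (hp : ∀ ω, 0 ≤ d.P ω) : Marg d.Qr d.P (fun v => v 0) := by
  rw [Qr_eq]
  exact Pool.SLO.tup_marg hp d.L n 0

omit [Fintype I] in
theorem Qp_nonneg (hp : ∀ ω, 0 ≤ d.P ω) (i : ℕ) (w : d.Om × d.Om) : 0 ≤ d.Qp i w := by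
  unfold LDat.Qp dbl
  exact glue_nonneg hp hp w

/-- The pairs at the scale `0`. -/
theorem Qp0_eq {A : ℕ} {c : ℝ} (hd : d.OK b A c) : d.Qp 0 = dbl d.P d.L := by
  classical
  have hT : ∀ ω, d.Ti 0 ω = 0 := by
    intro ω
    unfold LDat.Ti
    rw [pow_zero, one_mul]
    have h1 := hd.hth (d.T ω)
    exact Int.floor_eq_zero_iff.2 ⟨h1.1, h1.2⟩
  funext w
  unfold LDat.Qp dbl glue
  have h1 : ∀ ω, law d.P (fun ω => (d.L ω, d.Ti 0 ω)) (d.L ω, d.Ti 0 ω) = law d.P d.L (d.L ω) := by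
    intro ω
    unfold law
    refine Finset.sum_congr rfl fun v _ => ?_
    by_cases h : d.L v = d.L ω
    · rw [if_pos h, if_pos (show (d.L v, d.Ti 0 v) = (d.L ω, d.Ti 0 ω) by rw [h, hT, hT])]
    · rw [if_neg h, if_neg (fun h' => h (Prod.ext_iff.mp h').1)]
  by_cases h : d.L w.1 = d.L w.2
  · have h' : (d.L w.1, d.Ti 0 w.1) = (d.L w.2, d.Ti 0 w.2) := by rw [h, hT, hT]
    rw [if_pos h', if_pos h, h1]
  · have h' : ¬ (d.L w.1, d.Ti 0 w.1) = (d.L w.2, d.Ti 0 w.2) := fun h' =>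
      h (Prod.ext_iff.mp h').1
    rw [if_neg h', if_neg h]

/-- The times of the references are separated. -/
theorem sep_prob {A : ℕ} {c : ℝ} (hd : d.OK b A c) {k₀ : ℕ} {ε : ℝ} (hTC : TC d k₀ ε) :
    Pr d.Qr {v | ¬ d.sep k₀ v} ≤ (n + 1) ^ 2 * ε := by
  classical
  have hQ := Qr_isLaw d hd.law
  set E : Fin (n + 1) × Fin (n + 1) → Set (Fin (n + 1) → d.Om) := fun x =>
    {v | x.1 ≠ x.2 ∧ |d.th (d.T (v x.2)) - d.th (d.T (v x.1))| < (2 : ℝ) ^ (-(k₀ : ℤ))} with hE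
  have h1 : Pr d.Qr {v | ¬ d.sep k₀ v} ≤ Pr d.Qr {v | ∃ x, v ∈ E x} := by
    refine Pool.KAF.Pr_mono hQ.nonneg fun v _ hv => ?_
    have hv' : ¬ d.sep k₀ v := hv
    unfold LDat.sep at hv'
    push Not at hv'
    obtain ⟨j, j', h2, h3⟩ := hv'
    refine ⟨(j, j'), h2, ?_⟩
    rw [abs_sub_comm]
    exact h3
  refine h1.trans ((Pool.OCG.Dat.Pr_exists_le hQ.nonneg E).trans ?_)
  have h2 : ∀ x ∈ (univ : Finset (Fin (n + 1) × Fin (n + 1))), Pr d.Qr (E x) ≤ ε := by
    intro x _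
    by_cases hx : x.1 = x.2
    · have h3 : Pr d.Qr (E x) ≤ Pr d.Qr ∅ :=
        Pool.KAF.Pr_mono hQ.nonneg fun v _ hv => absurd hx hv.1
      have h4 : Pr d.Qr (∅ : Set (Fin (n + 1) → d.Om)) = 0 := by
        rw [Pool.KAF.Pr_eq]
        simp
      have h5 : 0 ≤ ε := (Pool.KAF.Pr_nonneg (Qp_nonneg d hd.law.nonneg 0) _).trans hTC
      linarith
    · have h3 : Marg d.Qr (d.Qp 0) (fun v => (v x.1, v x.2)) := by
        rw [Qr_eq, Qp0_eq b d hd]
        exact Pool.SLO.tup_two hd.law.nonneg d.L x.1 x.2 hx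
      have h4 : Pr d.Qr {w | (w x.1, w x.2) ∈ {w | |d.ta w| < (2 : ℝ) ^ (-(k₀ : ℤ))}} =
          Pr (d.Qp 0) {w | |d.ta w| < (2 : ℝ) ^ (-(k₀ : ℤ))} :=
        h3.law (fun w => w ∈ {w | |d.ta w| < (2 : ℝ) ^ (-(k₀ : ℤ))}) True
      have h5 : Pr d.Qr (E x) ≤ Pr d.Qr {w | (w x.1, w x.2) ∈
          {w | |d.ta w| < (2 : ℝ) ^ (-(k₀ : ℤ))}} :=
        Pool.KAF.Pr_mono hQ.nonneg fun v _ hv => hv.2
      rw [h4] at h5
      exact h5.trans hTC
  refine (Finset.sum_le_sum h2).trans (le_of_eq ?_)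
  rw [Finset.sum_const, nsmul_eq_mul, Finset.card_univ, Fintype.card_prod, Fintype.card_fin]
  push_cast
  ring

/-- The position of the line to `r` digits is in the unit cube. -/
theorem y₀_le {A : ℕ} {c : ℝ} (hd : d.OK b A c) (r : ℕ) (l : d.Lam) (j : Fin k) :
    |d.y₀ r l j| ≤ 1 := by
  unfold LDat.y₀
  have h1 := abs_le.mp (hd.hy l j)
  have hP : (0 : ℝ) < 2 ^ r := by positivity
  rw [abs_div, abs_of_pos hP, div_le_one hP, abs_le]
  constructor
  · have h2 : -(2 : ℤ) ^ r ≤ ⌊(2 : ℝ) ^ r * d.yR l j⌋ := by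
      rw [Int.le_floor]
      push_cast
      nlinarith [h1.1]
    exact_mod_cast h2
  · have h2 := Int.floor_le ((2 : ℝ) ^ r * d.yR l j)
    nlinarith [h1.2]

/-- The gradients relative to a separated reference are bounded. -/
theorem gr_le {A : ℕ} {c : ℝ} (hd : d.OK b A c) (r k₀ : ℕ) {v : Fin (n + 1) → d.Om}
    (hs : d.sep k₀ v) (w : d.Om × d.Om) :
    ‖d.gr b r (v, w)‖ ≤
      (2 + n * ((n + 1) * 2 ^ ((k₀ + 1) * n))) * ((2 : ℝ) ^ c * (b.C * (Fintype.card I + 1))) := by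
  have hC : 0 ≤ b.C := le_trans zero_le_one b.hC
  have hc0 : (0 : ℝ) < 2 ^ c := by positivity
  set M₀ : ℝ := 2 + n * ((n + 1) * 2 ^ ((k₀ + 1) * n)) with hM₀
  have hM₀0 : 0 ≤ M₀ := by positivity
  have hrs : ∀ i, |d.rs (v, w) i| ≤ M₀ * 2 ^ c := by
    intro i
    unfold LDat.rs
    have h1 : |d.sg w i| ≤ 2 * 2 ^ c := by
      unfold LDat.sg
      have a1 := abs_sub (d.co (d.T w.2) i) (d.co (d.T w.1) i)
      have a2 := hd.hco (d.T w.2) i
      have a3 := hd.hco (d.T w.1) i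
      linarith
    have h2 : ∀ a : Fin n, |d.dt a w * d.As v a i| ≤ (n + 1) * 2 ^ ((k₀ + 1) * n) * 2 ^ c := by
      intro a
      rw [abs_mul]
      have a1 : |d.dt a w| ≤ 1 := by
        unfold LDat.dt
        have b1 := hd.hth (d.T w.1)
        have b2 := hd.hth (d.T w.2)
        have b3 := pow_nonneg b1.1 (a.val + 1)
        have b4 := pow_nonneg b2.1 (a.val + 1)
        have b5 := pow_le_one₀ b1.1 b1.2.le (n := a.val + 1)
        have b6 := pow_le_one₀ b2.1 b2.2.le (n := a.val + 1)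
        rw [abs_le]
        constructor <;> linarith
      have a2 : |d.As v a i| ≤ (n + 1) * 2 ^ ((k₀ + 1) * n) * 2 ^ c := by
        unfold LDat.As
        refine L48.lag_le _ _ (fun j => ?_) hs (fun j => hd.hco _ _) _
        have b1 := hd.hth (d.T (v j))
        rw [abs_le]
        constructor <;> linarith
      calc |d.dt a w| * |d.As v a i| ≤ 1 * |d.As v a i| :=
            mul_le_mul_of_nonneg_right a1 (abs_nonneg _)
        _ ≤ _ := by rw [one_mul]; exact a2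
    have h3 : |∑ a, d.dt a w * d.As v a i| ≤ n * ((n + 1) * 2 ^ ((k₀ + 1) * n) * 2 ^ c) := by
      refine (Finset.abs_sum_le_sum_abs _ _).trans ((Finset.sum_le_sum fun a _ => h2 a).trans ?_)
      rw [Finset.sum_const, Finset.card_univ, Fintype.card_fin, nsmul_eq_mul]
    have h4 := abs_sub (d.sg w i) (∑ a, d.dt a w * d.As v a i)
    have h5 : M₀ * 2 ^ c = 2 * 2 ^ c + n * ((n + 1) * 2 ^ ((k₀ + 1) * n) * 2 ^ c) := by
      rw [hM₀]
      ring
    rw [h5]
    exact h4.trans (by linarith)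
  rw [pi_norm_le_iff_of_nonneg (by positivity)]
  intro j
  rw [Real.norm_eq_abs]
  unfold LDat.gr grd
  have h1 : ∀ i : I, |d.rs (v, w) i * b.D i (d.y₀ r (d.L ((v, w).1 0))) j| ≤
      M₀ * 2 ^ c * b.C := by
    intro i
    rw [abs_mul]
    exact mul_le_mul (hrs i) (b.hD i _ (fun j => y₀_le b d hd r _ j) j) (abs_nonneg _)
      (by positivity)
  refine (Finset.abs_sum_le_sum_abs _ _).trans ((Finset.sum_le_sum fun i _ => h1 i).trans ?_)
  rw [Finset.sum_const, Finset.card_univ, nsmul_eq_mul]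
  have h2 : (Fintype.card I : ℝ) ≤ Fintype.card I + 1 := by linarith
  have h3 : (Fintype.card I : ℝ) * (M₀ * 2 ^ c * b.C) ≤ (Fintype.card I + 1) * (M₀ * 2 ^ c * b.C) :=
    mul_le_mul_of_nonneg_right h2 (by positivity)
  refine h3.trans (le_of_eq ?_)
  ring

/-- The far pairs depend only on the times of the reference and on the line. -/
theorem fq_lab (r ns : ℕ) {v v' : Fin (n + 1) → d.Om} (h1 : ∀ j, d.T (v j) = d.T (v' j))
    (h2 : d.L (v 0) = d.L (v' 0)) (a : ℝ) : d.fq b r ns v a = d.fq b r ns v' a := by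
  have h3 : ∀ w, d.gr b r (v, w) = d.gr b r (v', w) := by
    intro w
    unfold LDat.gr
    have h4 : d.rs (v, w) = d.rs (v', w) := by
      funext i
      unfold LDat.rs LDat.As
      simp only [h1]
    show grd b (d.rs (v, w)) (d.y₀ r (d.L (v 0))) = grd b (d.rs (v', w)) (d.y₀ r (d.L (v' 0)))
    rw [h4, h2]
  unfold LDat.fq
  simp only [h3, h2]

theorem fq_le_card {A : ℕ} {c : ℝ} (hd : d.OK b A c) (r ns : ℕ) {v : Fin (n + 1) → d.Om}
    (hv : 0 < d.Qr v) (a : ℝ) : d.fq b r ns v a ≤ ns := by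
  unfold LDat.fq
  have hp := hd.law
  have h1 : 0 < d.P (v 0) := (Qr_marg d hp.nonneg).pos (Qr_isLaw d hp).nonneg hv
  have h2 : ∀ i, Pr (cond (d.Qp i) (fun w => d.L w.1) (d.L (v 0)))
      {w | a * |d.ta w| < ‖d.gr b r (v, w)‖} ≤ 1 := by
    intro i
    refine Pool.KAF.Pr_le_one ⟨cond_nonneg (Qp_nonneg d hp.nonneg i) _ _, ?_⟩ _
    refine sum_cond _ _ ?_
    have h3 : law (d.Qp i) (fun w => d.L w.1) (d.L (v 0)) = law d.P d.L (d.L (v 0)) :=
      (dbl_fst (b := fun ω => (d.L ω, d.Ti i ω)) hp.nonneg).law d.L (d.L (v 0))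
    rw [h3]
    exact (law_pos hp.nonneg d.L h1).ne'
  refine (Finset.sum_le_sum fun i _ => h2 i).trans ?_
  rw [Finset.sum_const, Finset.card_range, nsmul_eq_mul, mul_one]

end dat

theorem qnt_thm : QNTStmt := by
  classical
  intro k n k₀
  set M₀ : ℝ := 2 + n * ((n + 1) * 2 ^ ((k₀ + 1) * n)) with hM₀
  obtain ⟨n₁, hn₁⟩ := pow_unbounded_of_one_lt M₀ (by norm_num : (1 : ℝ) < 2)
  refine ⟨n₁ + 1, ?_⟩
  intro I _ b d A ns c d₁ ε hd hns hd₁ hc hcn hTC hti
  have hP := hd.law.nonneg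
  have hQ : ∀ i w, 0 ≤ d.Qp i w := fun i w => Qp_nonneg d hP i w
  have hR := Qr_isLaw d hd.law
  have hε : 0 ≤ ε := (Pool.KAF.Pr_nonneg (hQ 0) _).trans hTC
  set F : (Fin (n + 1) → d.Om) → Finset ℤ := fun v =>
    (Finset.Icc (-(4 * ns : ℤ)) (2 * ns)).filter
      fun l => d.fq b (8 * ns) ns v ((2 : ℝ) ^ (1 - l)) ≤ d₁ * ns with hF
  set m : (Fin (n + 1) → d.Om) → ℤ := fun v =>
    if h : (F v).Nonempty then (F v).max' h else -(4 * ns : ℤ) with hm
  have hmem : ∀ v, (F v).Nonempty → m v ∈ F v := by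
    intro v h
    simp only [hm]
    rw [dif_pos h]
    exact Finset.max'_mem _ h
  have hrange : ∀ v, -(4 * ns : ℤ) ≤ m v ∧ m v ≤ 2 * ns := by
    intro v
    by_cases h : (F v).Nonempty
    · have h1 := (Finset.mem_filter.mp (hmem v h)).1
      exact Finset.mem_Icc.mp h1
    · simp only [hm]
      rw [dif_neg h]
      constructor
      · exact le_rfl
      · omega
  refine ⟨m, hrange, ?_, ?_, ?_⟩
  · -- the label
    intro v v' h1 h2
    have h3 : F v = F v' := by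
      simp only [hF]
      refine Finset.filter_congr fun l _ => ?_
      rw [fq_lab b d (8 * ns) ns h1 h2]
    simp only [hm, h3]
  · -- references without any good level
    by_cases hd1 : d₁ ≤ 1
    swap
    · have h1 : Pr d.Qr {v | d₁ * ns < d.fq b (8 * ns) ns v ((2 : ℝ) ^ (1 - m v))} ≤
          Pr d.Qr ∅ := by
        refine Pr_mono' hR.nonneg fun v hv hw => ?_
        have h2 : d₁ * ns < d.fq b (8 * ns) ns v ((2 : ℝ) ^ (1 - m v)) := hw
        have h3 := fq_le_card b d hd (8 * ns) ns hv ((2 : ℝ) ^ (1 - m v))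
        have h4 : (ns : ℝ) ≤ d₁ * ns := by
          have h5 : (0 : ℝ) ≤ ns := Nat.cast_nonneg _
          nlinarith [not_le.mp hd1]
        exact absurd h2 (not_lt.mpr (h3.trans h4))
      have h2 : Pr d.Qr (∅ : Set (Fin (n + 1) → d.Om)) = 0 := by
        rw [Pool.KAF.Pr_eq]
        simp
      rw [h2] at h1
      refine h1.trans ?_
      positivity
    set f : d.Om → ℝ := fun ω => ∑ i ∈ range ns,
      Pr (Pool.Agent.H49.Ent.cond (d.Qp i) (fun w => d.L w.1) (d.L ω))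
        {w | |d.ta w| < (2 : ℝ) ^ (-(2 * ns : ℤ))} with hf
    have hf0 : ∀ ω, 0 ≤ f ω := fun ω => Finset.sum_nonneg fun i _ =>
      Pool.KAF.Pr_nonneg (fun w => cond_nonneg (hQ i) _ _ w) _
    have h1 : Pr d.Qr {v | d₁ * ns < d.fq b (8 * ns) ns v ((2 : ℝ) ^ (1 - m v))} ≤
        Pr d.Qr ({v | ¬ d.sep k₀ v} ∪ {v | d₁ * ns < f (v 0)}) := by
      refine Pr_mono' hR.nonneg fun v hv hw => ?_
      by_cases hs : d.sep k₀ v
      swap
      · exact Or.inl hs
      refine Or.inr ?_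
      have h2 : d₁ * ns < d.fq b (8 * ns) ns v ((2 : ℝ) ^ (1 - m v)) := hw
      have h3 : ¬ (F v).Nonempty := by
        intro h4
        have h5 := (Finset.mem_filter.mp (hmem _ h4)).2
        exact absurd h2 (not_lt.mpr h5)
      have h4 : m v = -(4 * ns : ℤ) := by
        simp only [hm]
        rw [dif_neg h3]
      rw [h4] at h2
      refine lt_of_lt_of_le h2 ?_
      show d.fq b (8 * ns) ns v ((2 : ℝ) ^ (1 - -(4 * ns : ℤ))) ≤ f (v 0)
      unfold LDat.fq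
      simp only [hf]
      refine Finset.sum_le_sum fun i _ => ?_
      refine Pr_mono' (fun w => cond_nonneg (hQ i) _ _ w) fun w _ hw => ?_
      have h5 : (2 : ℝ) ^ (1 - -(4 * ns : ℤ)) * |d.ta w| < ‖d.gr b (8 * ns) (v, w)‖ := hw
      have h6 := gr_le b d hd (8 * ns) k₀ hs w
      rw [← hM₀] at h6
      show |d.ta w| < (2 : ℝ) ^ (-(2 * ns : ℤ))
      have hM0 : 0 ≤ M₀ := by
        rw [hM₀]
        positivity
      have h7 : M₀ * ((2 : ℝ) ^ c * (b.C * (Fintype.card I + 1))) ≤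
          (2 : ℝ) ^ ns * (2 : ℝ) ^ ns := by
        have a1 : M₀ ≤ (2 : ℝ) ^ ns :=
          hn₁.le.trans (pow_le_pow_right₀ (by norm_num) (by omega))
        have a2 : (2 : ℝ) ^ ((ns : ℝ) / 2) ≤ (2 : ℝ) ^ ns := by
          rw [← Real.rpow_natCast 2 ns]
          exact Real.rpow_le_rpow_of_exponent_le (by norm_num) (by
            have : (0 : ℝ) ≤ ns := Nat.cast_nonneg _
            linarith)
        exact mul_le_mul a1 (hcn.trans a2) (by
          have := b.hC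
          positivity) (by positivity)
      have h8 : (2 : ℝ) ^ (1 - -(4 * ns : ℤ)) = 2 * (2 : ℝ) ^ ns * (2 : ℝ) ^ ns *
          (2 : ℝ) ^ (2 * ns : ℤ) := by
        rw [← zpow_natCast, ← zpow_one_add₀ (by norm_num), ← zpow_add₀ (by norm_num),
          ← zpow_add₀ (by norm_num)]
        congr 1
        push_cast
        ring
      have h9 : 2 * (2 : ℝ) ^ ns * (2 : ℝ) ^ ns * (2 : ℝ) ^ (2 * ns : ℤ) * |d.ta w| <
          (2 : ℝ) ^ ns * (2 : ℝ) ^ ns := by
        rw [← h8]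
        exact h5.trans_le (h6.trans h7)
      have h10 : (0 : ℝ) < (2 : ℝ) ^ ns := by positivity
      have h11 : (0 : ℝ) < (2 : ℝ) ^ (2 * ns : ℤ) := by positivity
      rw [zpow_neg, ← one_div, lt_div_iff₀ h11]
      have h12 : (2 : ℝ) ^ ns * (2 : ℝ) ^ ns * (2 * (2 : ℝ) ^ (2 * ns : ℤ) * |d.ta w|) <
          (2 : ℝ) ^ ns * (2 : ℝ) ^ ns * 1 := by linarith
      have h13 := lt_of_mul_lt_mul_left h12 (by positivity)
      have h14 : 0 ≤ (2 : ℝ) ^ (2 * ns : ℤ) * |d.ta w| := by positivity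
      linarith
    have h2 := Pool.KAF.Pr_union_le hR.nonneg {v | ¬ d.sep k₀ v} {v | d₁ * ns < f (v 0)}
    have h3 := sep_prob b d hd hTC
    have h4 : Pr d.Qr {v | d₁ * ns < f (v 0)} = Pr d.P {ω | d₁ * ns < f ω} :=
      (Qr_marg d hP).law (fun ω => ω ∈ {ω | d₁ * ns < f ω}) True
    have hn' : (0 : ℝ) < ns := by exact_mod_cast (by omega : 0 < ns)
    have h5 := markov' hP hf0 (d₁ * ns)
    have h6 : ∑ ω, d.P ω * f ω ≤ ns * ε := by
      have e1 : ∀ i ∈ range ns, ∑ ω, d.P ω *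
          Pr (Pool.Agent.H49.Ent.cond (d.Qp i) (fun w => d.L w.1) (d.L ω))
            {w | |d.ta w| < (2 : ℝ) ^ (-(2 * ns : ℤ))} ≤ ε := by
        intro i hi
        have e2 := (dbl_fst (b := fun ω => (d.L ω, d.Ti i ω)) hP).ex (fun ω =>
          Pr (Pool.Agent.H49.Ent.cond (d.Qp i) (fun w => d.L w.1) (d.L ω))
            {w | |d.ta w| < (2 : ℝ) ^ (-(2 * ns : ℤ))})
        unfold Ex at e2
        rw [← e2]
        exact (mean_cond (hQ i) (fun w => d.L w.1) _).le.trans (hti i (Finset.mem_range.mp hi))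
      calc ∑ ω, d.P ω * f ω = ∑ i ∈ range ns, ∑ ω, d.P ω *
          Pr (Pool.Agent.H49.Ent.cond (d.Qp i) (fun w => d.L w.1) (d.L ω))
            {w | |d.ta w| < (2 : ℝ) ^ (-(2 * ns : ℤ))} := by
            rw [Finset.sum_comm]
            refine Finset.sum_congr rfl fun ω _ => ?_
            simp only [hf]
            rw [Finset.mul_sum]
        _ ≤ ∑ i ∈ range ns, ε := Finset.sum_le_sum e1
        _ = ns * ε := by rw [Finset.sum_const, Finset.card_range, nsmul_eq_mul]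
    have h7 : Pr d.P {ω | d₁ * ns < f ω} ≤ ε / d₁ := by
      rw [le_div_iff₀ hd₁]
      have h4 : d₁ * ns * Pr d.P {ω | d₁ * ns < f ω} ≤ ns * ε := h5.trans h6
      have h5 : ns * (Pr d.P {ω | d₁ * ns < f ω} * d₁) ≤ ns * ε := by linarith
      exact le_of_mul_le_mul_left h5 hn'
    have h8 : ((n : ℝ) + 1) ^ 2 * ε ≤ (n + 1) ^ 2 * ε / d₁ := by
      rw [le_div_iff₀ hd₁]
      exact mul_le_of_le_one_right (by positivity) hd1
    have h9 : ε / d₁ ≤ (n + 1) ^ 2 * ε / d₁ := by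
      refine div_le_div_of_nonneg_right ?_ hd₁.le
      have : (1 : ℝ) ≤ (n + 1) ^ 2 := by
        have : (0 : ℝ) ≤ n := Nat.cast_nonneg _
        nlinarith
      exact le_mul_of_one_le_left hε this
    have h10 : 2 * ((n : ℝ) + 1) ^ 2 * ε / d₁ = (n + 1) ^ 2 * ε / d₁ + (n + 1) ^ 2 * ε / d₁ := by
      ring
    rw [h10]
    linarith
  · -- maximality
    intro v hv hlt
    by_contra hno
    push Not at hno
    have h1 : m v + 1 ∈ F v := by
      refine Finset.mem_filter.mpr ⟨Finset.mem_Icc.mpr ⟨?_, ?_⟩, ?_⟩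
      · have := (hrange v).1
        omega
      · omega
      · have e1 : 1 - (m v + 1) = -m v := by ring
        rw [e1]
        exact hno
    have h2 : (F v).Nonempty := ⟨_, h1⟩
    have h3 : m v + 1 ≤ m v := by
      conv_rhs => rw [hm]
      simp only
      rw [dif_pos h2]
      exact Finset.le_max' _ _ h1
    omega

end Pool.M5.Q86
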