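import Pool.Agent.H48.M5.Stmts
import Pool.Agent.H14.OC.Tim

/-!
# Rows TIM and TIC of the lemma L1: the distances of the times of pairs
-/

set_option autoImplicit false

namespace Pool.M5.T86

open Finset Real
open Pool.Agent.H49.Ent Pool.Agent.H32.Dense Pool.STK Pool.KAF Pool.M5

variable {k n : ℕ} {I : Type}

/-- Lines and times only, as data of theorem OC. -/
noncomputable def toOC (d : LDat k n I) : Pool.OC.Dat where
  Om := d.Om
  Lam := d.Lam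
  Tau := d.Tau
  P := d.P
  L := d.L
  T := d.T
  y := fun _ => 0
  om := fun _ => 0
  be := fun _ => 0
  N := fun _ => 0
  th := d.th
  S := fun _ => 0
  X := d.X

theorem toOC_OK {d : LDat k n I} (h1 : IsLaw d.P) (h2 : ∀ t, 0 ≤ d.th t ∧ d.th t < 1) :
    (toOC d).OK 0 where
  law := h1
  hy := fun ω _ => by simp [Pool.OC.Dat.yR, toOC]
  hom := fun ω _ => by simp [Pool.OC.Dat.omR, toOC]
  hbe := fun ω _ => by simp [Pool.OC.Dat.beR, toOC]
  hN := fun _ _ _ _ _ => rfl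
  hth := h2
  hS := fun t => by simp [toOC]
  hZ := fun ω ω' _ _ _ => by simp [Pool.OC.Dat.ZR, Pool.OC.Dat.yR, Pool.OC.Dat.omR,
    Pool.OC.Dat.beR, toOC]

theorem tim_thm : TIMStmt := by
  intro k n I _ ε hε
  obtain ⟨k'', h⟩ := Pool.OC.tim_thm ε hε
  refine ⟨k'', fun κ₂ hκ₂ => ?_⟩
  obtain ⟨ι, X₀, hι, h⟩ := h κ₂ hκ₂
  refine ⟨ι, X₀, hι, ?_⟩
  intro d b A j₀ c ε₀ hd hX hH1
  have h1 := h (toOC d) 0 (toOC_OK hd.law hd.hth) hX ⟨hH1.1, hH1.2.1⟩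
  exact ⟨fun i i' hi hi' => h1.1 i i' hi hi', fun a b hab hb => h1.2 a b hab hb⟩

theorem tic_thm : TICStmt := by
  intro ε hε
  have hlog : 0 < Real.log 2 := Real.log_pos (by norm_num)
  refine ⟨⌈5 / ε⌉₊, Real.log 2, hlog, ?_⟩
  intro k n I _ d b A j₀ ι c hd hk hH1
  set k₀ := ⌈5 / ε⌉₊ with hk₀
  have hk₀1 : 5 / ε ≤ k₀ := Nat.le_ceil _
  have hk₀0 : (0 : ℝ) < k₀ := lt_of_lt_of_le (by positivity) hk₀1
  have hOK := toOC_OK hd.law hd.hth
  have h1 := Pool.OC.TIM.fano (d := toOC d) hd.law 0 k₀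
  have h2 := Pool.OC.TIM.df_mono (d := toOC d) hd.law k₀ (j₀ - k₀)
  rw [Nat.add_sub_cancel' hk] at h2
  have h3 : Pool.OC.TIM.df (toOC d) j₀ ≤ Real.log 2 := by
    have h4 := hH1.2.2
    unfold Pool.OC.TIM.df Pool.OC.TIM.D
    have h5 : CH (toOC d).P ((toOC d).Ti j₀) (toOC d).L = CH d.P (d.Ti j₀) d.L := rfl
    rw [h5]
    linarith
  have h4 := Pool.OC.TIM.df_nonneg (d := toOC d) hOK 0
  rw [zero_add] at h1
  set p := Pr ((toOC d).Qp 0) {w | |(toOC d).ta w| < (2 : ℝ) ^ (-(k₀ : ℤ))} with hp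
  have h5 : p * (k₀ * Real.log 2) ≤ 5 * Real.log 2 := by linarith
  have h6 : 5 * Real.log 2 ≤ ε * (k₀ * Real.log 2) := by
    rw [div_le_iff₀ hε] at hk₀1
    nlinarith
  have h7 : p * (k₀ * Real.log 2) ≤ ε * (k₀ * Real.log 2) := h5.trans h6
  exact le_of_mul_le_mul_right h7 (by positivity)

end Pool.M5.T86
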